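import Mathlib
import Pool.Agent.Lib.MP_3013d0_nt.Main
import Pool.Agent.Lib.MP_3013d0_nt.Gau

/-!
# The divergence case for Hausdorff measures of multiplicative inhomogeneous linear forms

If the volume sum diverges then the generalised Hausdorff measure of the set of multiplicatively
`Ψ`-approximable systems of linear forms is infinite.
-/

open Set Filter Topology MeasureTheory
open scoped ENNReal

namespace Pool.Agent.Results.MP_3013d0_nt.Divergence

/-- Distance to the nearest integer. -/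
noncomputable def distInt (t : ℝ) : ℝ := |t - round t|

/-- The sup norm of an integer vector. -/
def supNorm {m : ℕ} (q : Fin m → ℤ) : ℕ := Finset.univ.sup fun j => (q j).natAbs

/-- The set `W_{Ψ,θ}`: points `X = (x⁽¹⁾, …, x⁽ᵈ⁾)` of `[0,1]^{md}` (in Euclidean space) such that
`∏ᵢ ‖q · x⁽ⁱ⁾ - θᵢ‖ < Ψ(q)` for infinitely many nonzero `q ∈ ℤᵐ`. -/
def W (m d : ℕ) (θ : Fin d → ℝ) (Ψ : (Fin m → ℤ) → ℝ) : Set (EuclideanSpace ℝ (Fin d × Fin m)) :=
  {X | (∀ p, 0 ≤ X p ∧ X p ≤ 1) ∧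
    {q : Fin m → ℤ | q ≠ 0 ∧ ∏ i, distInt (∑ j, (q j : ℝ) * X (i, j) - θ i) < Ψ q}.Infinite}

/-- Dimension functions: positive, continuous and increasing on `(0, ∞)`, with limit `0` at `0`. -/
structure IsDimensionFunction (f : ℝ → ℝ) : Prop where
  pos : ∀ r, 0 < r → 0 < f r
  cont : ContinuousOn f (Ioi 0)
  mono : MonotoneOn f (Ioi 0)
  lim : Tendsto f (𝓝[>] 0) (𝓝 0)

/-- Condition (A). -/
def ConditionA (m d : ℕ) (f : ℝ → ℝ) : Prop :=
  ∃ s C : ℝ, (m * d : ℝ) - 1 < s ∧ s < (m * d : ℝ) ∧ 0 < C ∧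
    ∀ x y, 0 < x → x < y → f y ≤ C * (y / x) ^ s * f x

/-- The sum `Σ(Ψ, f)`, with values in `[0, ∞]`. -/
noncomputable def volumeSum (m d : ℕ) (Ψ : (Fin m → ℤ) → ℝ) (f : ℝ → ℝ) : ℝ≥0∞ :=
  ∑' q : {q : Fin m → ℤ // q ≠ 0}, if Ψ q.1 = 0 then 0 else
    ENNReal.ofReal ((supNorm q.1 : ℝ) ^ (m * d) * Ψ q.1 ^ (1 - (m * d : ℤ)) *
      f (Ψ q.1 / supNorm q.1))

/-- The Hausdorff measure `H^f`, given by Mathlib's `mkMetric` for the gauge `r ↦ f(r)`, extended by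
`0` at `r = 0`. -/
noncomputable def hausdorff {I : Type} [Fintype I] (f : ℝ → ℝ) (S : Set (EuclideanSpace ℝ I)) :
    ℝ≥0∞ :=
  Measure.mkMetric (fun r : ℝ≥0∞ => if r = 0 then 0 else ENNReal.ofReal (f r.toReal)) S

/-- Divergence of the volume sum implies infinite Hausdorff `f`-measure. -/
theorem result (m d : ℕ) (hm : 1 ≤ m) (hd : 1 ≤ d) (θ : Fin d → ℝ) (ψ : ℕ → ℝ)
    (hψ0 : ∀ n, 0 ≤ ψ n) (hψ : Antitone ψ) (f : ℝ → ℝ) (hf : IsDimensionFunction f)
    (hA : ConditionA m d f) (hg : MonotoneOn (fun x : ℝ => x ^ (1 - (m * d : ℤ)) * f x) (Ioi 0))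
    (hdiv : volumeSum m d (fun q => ψ (supNorm q)) f = ⊤) :
    hausdorff f (W m d θ (fun q => ψ (supNorm q))) = ⊤ := by
  classical
  obtain ⟨n, rfl⟩ : ∃ n, m = n + 1 := ⟨m - 1, by omega⟩
  obtain ⟨e, rfl⟩ : ∃ e, d = e + 1 := ⟨d - 1, by omega⟩
  obtain ⟨s, C, hs1, hs2, hC, hA⟩ := hA
  -- the exponent
  have hNcard : Fintype.card {j : Fin (e + 1) × Fin (n + 1) // j ≠ (0, 0)} =
      (n + 1) * (e + 1) - 1 := by
    rw [Fintype.card_subtype_compl, Fintype.card_prod, Fintype.card_fin, Fintype.card_fin,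
      Fintype.card_subtype_eq, mul_comm]
  obtain ⟨N, hN⟩ : ∃ N, (n + 1) * (e + 1) = N + 1 := by
    refine ⟨(n + 1) * (e + 1) - 1, ?_⟩
    have : 0 < (n + 1) * (e + 1) := by positivity
    omega
  have hNcard' : Fintype.card {j : Fin (e + 1) × Fin (n + 1) // j ≠ (0, 0)} = N := by
    rw [hNcard, hN]; rfl
  have hNz : (1 - (((n + 1 : ℕ) : ℤ) * ((e + 1 : ℕ) : ℤ)) : ℤ) = -(N : ℤ) := by
    have : ((((n + 1) * (e + 1) : ℕ)) : ℤ) = (N : ℤ) + 1 := by exact_mod_cast hN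
    push_cast at this ⊢
    linarith
  have hNr : (((n + 1 : ℕ) : ℝ) * ((e + 1 : ℕ) : ℝ)) = (N : ℝ) + 1 := by exact_mod_cast hN
  have hpow : ∀ x : ℝ, x ^ (1 - (((n + 1 : ℕ) : ℤ) * ((e + 1 : ℕ) : ℤ)) : ℤ) * f x = f x / x ^ N := by
    intro x
    rw [hNz, zpow_neg, zpow_natCast, mul_comm, div_eq_mul_inv]
  have hG := Pool.Agent.Lib.MP_3013d0_nt.gauge_of N f hf.pos hf.cont s C (by rw [← hNr]; exact hs2)
    hC hA (by
      intro x hx y hy hxy
      have := hg hx hy hxy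
      simp only [hpow] at this
      exact this)
  -- `ψ` is positive
  have hψpos : ∀ b, 0 < ψ b := by
    intro b
    by_contra hb
    have hb0 : ψ b = 0 := le_antisymm (not_lt.1 hb) (hψ0 b)
    have hz : ∀ c, b ≤ c → ψ c = 0 := fun c hc => le_antisymm (hb0 ▸ hψ hc) (hψ0 c)
    set F : Finset (Fin (n + 1) → ℤ) := Fintype.piFinset (fun _ : Fin (n + 1) =>
      Finset.Ioo (-((b : ℕ):ℤ)) ((b : ℕ) : ℤ)) with hF
    set F' : Finset {q : Fin (n + 1) → ℤ // q ≠ 0} := F.subtype (fun q => q ≠ 0) with hF'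
    have hfin : volumeSum (n + 1) (e + 1) (fun q => ψ (supNorm q)) f ≠ ⊤ := by
      unfold volumeSum
      rw [tsum_eq_sum (s := F')]
      · refine (ENNReal.sum_lt_top.2 fun q _ => ?_).ne
        split_ifs
        · exact ENNReal.zero_lt_top
        · exact ENNReal.ofReal_lt_top
      · intro q hq
        rw [if_pos]
        apply hz
        by_contra hlt
        push Not at hlt
        apply hq
        rw [hF', Finset.mem_subtype, hF, Fintype.mem_piFinset]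
        intro i
        have hi : (q.1 i).natAbs ≤ supNorm q.1 :=
          Finset.le_sup (f := fun j => (q.1 j).natAbs) (Finset.mem_univ i)
        rw [Finset.mem_Ioo]
        constructor <;> omega
    exact hfin hdiv
  -- rewrite the sum
  have hdiv2 : ∑' q : {q : Fin (n + 1) → ℤ // q ≠ 0},
      ENNReal.ofReal ((Pool.Agent.Lib.MP_3013d0_nt.nrm q.1 : ℝ) *
        ((fun x => f x / x ^ N) (ψ (Pool.Agent.Lib.MP_3013d0_nt.nrm q.1) /
          Pool.Agent.Lib.MP_3013d0_nt.nrm q.1))) = ⊤ := by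
    rw [← hdiv]
    unfold volumeSum
    congr 1
    funext q
    rw [if_neg (hψpos _).ne']
    congr 1
    have hq := Pool.Agent.Lib.MP_3013d0_nt.nrm_pos q.2
    have hsn : supNorm q.1 = Pool.Agent.Lib.MP_3013d0_nt.nrm q.1 := rfl
    simp only [hsn]
    rw [hN]
    have hq' : (0:ℝ) < Pool.Agent.Lib.MP_3013d0_nt.nrm q.1 := by exact_mod_cast hq
    have hψq := hψpos (Pool.Agent.Lib.MP_3013d0_nt.nrm q.1)
    rw [hNz, zpow_neg, zpow_natCast]
    simp only [div_pow]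
    generalize f (ψ (Pool.Agent.Lib.MP_3013d0_nt.nrm q.1) / Pool.Agent.Lib.MP_3013d0_nt.nrm q.1) = A
    have hψN : ψ (Pool.Agent.Lib.MP_3013d0_nt.nrm q.1) ^ N ≠ 0 := (pow_pos hψq N).ne'
    field_simp
    try ring
  exact Pool.Agent.Lib.MP_3013d0_nt.main n e θ ψ hψ hψpos f (fun x => f x / x ^ N) (max 1 C) hG
    hf.lim (by
      intro x hx
      rw [hNcard']
      have : x ^ N ≠ 0 := (pow_pos hx N).ne'
      field_simp) hdiv2

end Pool.Agent.Results.MP_3013d0_nt.Divergence
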